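import Pool.Agent.H171R2.Tri.Main
import Pool.Agent.H171R2.Tri.Imp

/-!
# The imperfection ratio of triangle-free induced subgraphs of the triangular lattice (MP_ae9f52_co)

`imp(G) ≤ 9/8` for every finite triangle-free induced subgraph `G` of the triangular lattice, i.e.
`χ_f(G_w) ≤ (9/8) ω(G_w)` for all demand vectors `w` (also real ones). The constant is attained by
the induced nine-cycle. Built on `H171R2.Tri.imp_triangleFree` of the starting library.
-/

set_option autoImplicit false

namespace Pool.Agent.Results.MP_ae9f52_co.TriangleFree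

open Pool.Agent.H171R2.Tri

/-- `x`-fractional multicolourings: `c` is a fractional covering by independent subsets of `S` in
which every vertex `v` of `S` is covered with weight at least `w v`. The minimum of its total weight
is the fractional chromatic number `χ_f(G_w)`, `G` the subgraph of the lattice induced by `S`. -/
structure IsMulticolouring (S : Finset (ℤ × ℤ)) (w : ℤ × ℤ → ℝ) (c : Finset (ℤ × ℤ) → ℝ) : Prop where
  nonneg : ∀ I, 0 ≤ c I
  indep : ∀ I, c I ≠ 0 → I ⊆ S ∧ triLattice.IsIndepSet (I : Set (ℤ × ℤ))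
  cover : ∀ v ∈ S, w v ≤ ∑ I ∈ S.powerset with v ∈ I, c I

/-- The weighted clique number `ω(G_w)`: the largest total demand of a clique contained in `S`. -/
noncomputable def weightedCliqueNumber (S : Finset (ℤ × ℤ)) (w : ℤ × ℤ → ℝ) : ℝ :=
  sSup {x | ∃ C : Finset (ℤ × ℤ), C ⊆ S ∧ triLattice.IsClique (C : Set (ℤ × ℤ)) ∧
    x = ∑ v ∈ C, w v}

/-- Let `S` be a finite set of points of the triangular lattice inducing a triangle-free graph `G`,
and let `w ≥ 0` be a demand vector with real (for example integral) entries. Then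
`χ_f(G_w) ≤ (9/8) ω(G_w)`: there is a fractional multicolouring of total weight at most
`(9/8) ω(G_w)`. -/
theorem result (S : Finset (ℤ × ℤ)) (hS : (triLattice.induce (S : Set (ℤ × ℤ))).CliqueFree 3)
    (w : ℤ × ℤ → ℝ) (hw : ∀ v, 0 ≤ w v) :
    ∃ c : Finset (ℤ × ℤ) → ℝ, IsMulticolouring S w c ∧
      ∑ I ∈ S.powerset, c I ≤ 9 / 8 * weightedCliqueNumber S w := by
  have hfin : {x | ∃ C : Finset (ℤ × ℤ), C ⊆ S ∧ triLattice.IsClique (C : Set (ℤ × ℤ)) ∧
      x = ∑ v ∈ C, w v}.Finite := by
    refine (Set.Finite.subset (S.powerset.finite_toSet.image fun C => ∑ v ∈ C, w v) ?_)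
    rintro x ⟨C, hC, -, rfl⟩
    exact ⟨C, by simpa using hC, rfl⟩
  obtain ⟨c, h1, h2, h3, h4⟩ := imp_triangleFree oct_main S hS w hw (weightedCliqueNumber S w)
    (fun C hC hcl => le_csSup hfin.bddAbove ⟨C, hC, hcl, rfl⟩)
  exact ⟨c, ⟨h1, h2, h3⟩, h4⟩

end Pool.Agent.Results.MP_ae9f52_co.TriangleFree
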